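import Mathlib

/-!
# Multiplicative bases over the positive reals and over the positive integers

We show that a polynomial gap exists: for all large `n` there is a set `B` of `n` positive reals
and a finite set `A` of positive integers in `B B` which is contained in no product set `C C`
with `C` a set of fewer than `n ^ (1 + 1 / 5)` positive integers.

Construction: take a prime `q` with `2 q ^ 2 ≤ n < 8 q ^ 2`, different primes `p i` for the points
`i` and `r j` for the (non vertical) lines `j` of the affine plane over `ZMod q`, and let `B`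
contain the numbers `1 / p i` and `r j * ∏ p i'`, the product over the points `i'` of `j`. The set
`A` consists of the products for the incident pairs `(i, j)`.
-/

namespace Pool.Agent.Results.MP_e3bb54_nt.PolynomialGap

open Finset

section core

variable {P J : Type} [DecidableEq P] [DecidableEq J]

/-- For one line: if all `a i = r * ∏_{i' ∈ N \ {i}} p i'` (`i ∈ N`) are products of two elements
of `C`, then `|N| ≤ x (y + 2)`, where `x` counts the elements of `C` divisible by `r` and dividing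
`r * ∏ p`, and `y` the elements of `C` which divide `∏ p` and are divisible by two of the primes. -/
lemma local_bound (N : Finset P) (p : P → ℕ) (r : ℕ) (hp : ∀ i, (p i).Prime)
    (hinj : Function.Injective p) (hr : r.Prime) (hne : ∀ i, p i ≠ r) (C : Finset ℕ)
    (hC : ∀ i ∈ N, ∃ c ∈ C, ∃ d ∈ C, r * ∏ k ∈ N.erase i, p k = c * d) :
    N.card ≤ (C.filter fun c => r ∣ c ∧ c ∣ r * ∏ k ∈ N, p k).card *
      ((C.filter fun d => d ∣ ∏ k ∈ N, p k ∧
        ∃ i ∈ N, ∃ k ∈ N, i ≠ k ∧ p i ∣ d ∧ p k ∣ d).card + 2) := by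
  classical
  set X := C.filter fun c => r ∣ c ∧ c ∣ r * ∏ k ∈ N, p k with hX
  set Y := C.filter fun d => d ∣ ∏ k ∈ N, p k ∧
        ∃ i ∈ N, ∃ k ∈ N, i ≠ k ∧ p i ∣ d ∧ p k ∣ d with hY
  -- a factorization with `r ∣ c`
  have hrp : ∀ s : Finset P, Nat.Coprime r (∏ k ∈ s, p k) := by
    intro s
    apply Nat.Coprime.prod_right
    intro i _
    exact (Nat.coprime_primes hr (hp i)).2 (fun h => hne i h.symm)
  have key : ∀ i : P, ∃ cd : ℕ × ℕ, i ∈ N →
      (r ∣ cd.1 ∧ cd.1 ∈ C ∧ cd.2 ∈ C ∧ r * ∏ k ∈ N.erase i, p k = cd.1 * cd.2) := by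
    intro i
    by_cases hi : i ∈ N
    · obtain ⟨c, hc, d, hd, h⟩ := hC i hi
      have : r ∣ c * d := by rw [← h]; exact dvd_mul_right _ _
      rcases (Nat.Prime.dvd_mul hr).1 this with h1 | h1
      · exact ⟨(c, d), fun _ => ⟨h1, hc, hd, h⟩⟩
      · exact ⟨(d, c), fun _ => ⟨h1, hd, hc, by rw [h, mul_comm]⟩⟩
    · exact ⟨(0, 0), fun h => absurd h hi⟩
  choose g hg using key
  have hprod : ∀ i ∈ N, (∏ k ∈ N.erase i, p k) * p i = ∏ k ∈ N, p k := by
    intro i hi
    rw [Finset.prod_erase_mul _ _ hi]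
  have hP : ∀ (s : Finset P), 0 < ∏ k ∈ s, p k := fun s => Finset.prod_pos fun k _ => (hp k).pos
  -- divisibility of a product of the primes
  have hdvd : ∀ (s : Finset P) (k : P), p k ∣ ∏ l ∈ s, p l → k ∈ s := by
    intro s k hk
    obtain ⟨l, hl, h⟩ := ((hp k).prime.dvd_finsetProd_iff _).1 hk
    have := (Nat.prime_dvd_prime_iff_eq (hp k) (hp l)).1 h
    rwa [hinj this]
  have hmemX : ∀ i ∈ N, (g i).1 ∈ X := by
    intro i hi
    obtain ⟨h1, h2, h3, h4⟩ := hg i hi
    rw [hX, mem_filter]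
    refine ⟨h2, h1, ?_⟩
    rw [← hprod i hi, ← mul_assoc, h4, mul_assoc]
    exact dvd_mul_right _ _
  have hdP : ∀ i ∈ N, (g i).2 ∣ ∏ k ∈ N.erase i, p k := by
    intro i hi
    obtain ⟨⟨e, he⟩, h2, h3, h4⟩ := hg i hi
    refine ⟨e, ?_⟩
    have : r * ∏ k ∈ N.erase i, p k = r * ((g i).2 * e) := by rw [h4, he]; ring
    exact Nat.eq_of_mul_eq_mul_left hr.pos this
  have hdP' : ∀ i ∈ N, (g i).2 ∣ ∏ k ∈ N, p k := by
    intro i hi
    rw [← hprod i hi]
    exact (hdP i hi).mul_right _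
  have hcp : ∀ i ∈ N, ¬ p i ∣ (g i).1 := by
    intro i hi hdv
    obtain ⟨h1, h2, h3, h4⟩ := hg i hi
    have : p i ∣ r * ∏ k ∈ N.erase i, p k := by
      rw [h4]; exact hdv.mul_right _
    rcases (Nat.Prime.dvd_mul (hp i)).1 this with h | h
    · exact hne i ((Nat.prime_dvd_prime_iff_eq (hp i) hr).1 h)
    · exact absurd (hdvd _ _ h) (by simp)
  -- the points with a large cofactor
  have hsplit : N.card = (N.filter fun i => (g i).2 ∈ Y).card +
      (N.filter fun i => ¬ (g i).2 ∈ Y).card := by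
    rw [Finset.card_filter_add_card_filter_not]
  have h1 : (N.filter fun i => (g i).2 ∈ Y).card ≤ X.card * Y.card := by
    rw [← Finset.card_product]
    apply Finset.card_le_card_of_injOn g
    · intro i hi
      have hi' := mem_filter.1 (Finset.mem_coe.1 hi)
      exact Finset.mem_coe.2 (mem_product.2 ⟨hmemX i hi'.1, hi'.2⟩)
    · intro i hi k hk hik
      have hi' := mem_filter.1 (Finset.mem_coe.1 hi)
      have hk' := mem_filter.1 (Finset.mem_coe.1 hk)
      by_contra hne'
      have e1 := (hg i hi'.1).2.2.2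
      have e2 := (hg k hk'.1).2.2.2
      have hik' : g i = g k := hik
      rw [← hik'] at e2
      have e3 : ∏ l ∈ N.erase i, p l = ∏ l ∈ N.erase k, p l :=
        Nat.eq_of_mul_eq_mul_left hr.pos (e1.trans e2.symm)
      have : p k ∣ ∏ l ∈ N.erase i, p l :=
        Finset.dvd_prod_of_mem p (mem_erase.2 ⟨fun h => hne' h.symm, hk'.1⟩)
      rw [e3] at this
      exact absurd (hdvd _ _ this) (by simp)
  have h2 : (N.filter fun i => ¬ (g i).2 ∈ Y).card ≤ 2 * X.card := by
    apply Finset.card_le_mul_card_image_of_maps_to (f := fun i => (g i).1)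
    · intro i hi
      exact hmemX i (mem_filter.1 hi).1
    · intro c _
      -- all these points are among the at most two points whose prime does not divide `c`
      by_cases hemp : ((N.filter fun i => ¬ (g i).2 ∈ Y).filter fun i => (g i).1 = c) = ∅
      · rw [hemp]; simp
      · obtain ⟨i, hi⟩ := Finset.nonempty_iff_ne_empty.2 hemp
        rw [mem_filter, mem_filter] at hi
        obtain ⟨⟨hiN, hiY⟩, hic⟩ := hi
        have hsub : ((N.filter fun i => ¬ (g i).2 ∈ Y).filter fun i => (g i).1 = c) ⊆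
            insert i (N.filter fun k => k ≠ i ∧ p k ∣ (g i).2) := by
          intro k hk
          rw [mem_filter, mem_filter] at hk
          obtain ⟨⟨hkN, hkY⟩, hkc⟩ := hk
          rw [mem_insert, mem_filter]
          by_cases hki : k = i
          · exact Or.inl hki
          · right
            refine ⟨hkN, hki, ?_⟩
            have hpk : p k ∣ (g i).1 * (g i).2 := by
              rw [← (hg i hiN).2.2.2]
              exact (Finset.dvd_prod_of_mem p (mem_erase.2 ⟨hki, hkN⟩)).mul_left _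
            rcases (Nat.Prime.dvd_mul (hp k)).1 hpk with h | h
            · exfalso
              apply hcp k hkN
              rw [hkc, ← hic]; exact h
            · exact h
        have hone : (N.filter fun k => k ≠ i ∧ p k ∣ (g i).2).card ≤ 1 := by
          rw [Finset.card_le_one]
          intro k hk l hl
          rw [mem_filter] at hk hl
          by_contra hkl
          apply hiY
          rw [hY, mem_filter]
          exact ⟨(hg i hiN).2.2.1, hdP' i hiN, k, hk.1, l, hl.1, hkl, hk.2.2, hl.2.2⟩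
        calc _ ≤ (insert i (N.filter fun k => k ≠ i ∧ p k ∣ (g i).2)).card := card_le_card hsub
          _ ≤ (N.filter fun k => k ≠ i ∧ p k ∣ (g i).2).card + 1 := card_insert_le _ _
          _ ≤ 2 := by omega
  calc N.card ≤ X.card * Y.card + 2 * X.card := by omega
    _ = X.card * (Y.card + 2) := by ring

omit [DecidableEq J] in
/-- The general lower bound for `|C|`. -/
lemma global_bound [Fintype J] (N : J → Finset P) (q : ℕ) (hN : ∀ j, (N j).card = q)
    (hcod : ∀ j j', j ≠ j' → ∀ i k, i ∈ N j → i ∈ N j' → k ∈ N j → k ∈ N j' → i = k)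
    (p : P → ℕ) (r : J → ℕ) (hp : ∀ i, (p i).Prime) (hr : ∀ j, (r j).Prime)
    (hpi : Function.Injective p) (hri : Function.Injective r) (hne : ∀ i j, p i ≠ r j)
    (C : Finset ℕ)
    (hC : ∀ j, ∀ i ∈ N j, ∃ c ∈ C, ∃ d ∈ C, r j * ∏ k ∈ (N j).erase i, p k = c * d) :
    (Fintype.card J : ℝ) * (Real.sqrt q - 1) ≤ C.card := by
  classical
  set X : J → Finset ℕ := fun j => C.filter fun c => r j ∣ c ∧ c ∣ r j * ∏ k ∈ N j, p k with hX
  set Y : J → Finset ℕ := fun j => C.filter fun d => d ∣ ∏ k ∈ N j, p k ∧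
        ∃ i ∈ N j, ∃ k ∈ N j, i ≠ k ∧ p i ∣ d ∧ p k ∣ d with hY
  have hdvd : ∀ (s : Finset P) (k : P), p k ∣ ∏ l ∈ s, p l → k ∈ s := by
    intro s k hk
    obtain ⟨l, hl, h⟩ := ((hp k).prime.dvd_finsetProd_iff _).1 hk
    have := (Nat.prime_dvd_prime_iff_eq (hp k) (hp l)).1 h
    rwa [hpi this]
  have hsX : ∑ j, (X j).card ≤ C.card := by
    rw [← Finset.card_biUnion]
    · apply card_le_card
      intro c hc
      obtain ⟨j, _, hj⟩ := mem_biUnion.1 hc
      exact (mem_filter.1 hj).1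
    · intro j _ j' _ hjj
      rw [Function.onFun, Finset.disjoint_left]
      intro c hc hc'
      have h1 := (mem_filter.1 hc).2
      have h2 := (mem_filter.1 hc').2
      have h3 : r j ∣ r j' * ∏ k ∈ N j', p k := h1.1.trans h2.2
      rcases (Nat.Prime.dvd_mul (hr j)).1 h3 with h | h
      · exact hjj (hri ((Nat.prime_dvd_prime_iff_eq (hr j) (hr j')).1 h))
      · obtain ⟨l, hl, h⟩ := ((hr j).prime.dvd_finsetProd_iff _).1 h
        exact hne l j ((Nat.prime_dvd_prime_iff_eq (hr j) (hp l)).1 h).symm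
  have hsY : ∑ j, (Y j).card ≤ C.card := by
    rw [← Finset.card_biUnion]
    · apply card_le_card
      intro c hc
      obtain ⟨j, _, hj⟩ := mem_biUnion.1 hc
      exact (mem_filter.1 hj).1
    · intro j _ j' _ hjj
      rw [Function.onFun, Finset.disjoint_left]
      intro d hd hd'
      obtain ⟨_, i, hi, k, hk, hik, hid, hkd⟩ := (mem_filter.1 hd).2
      have h2 := (mem_filter.1 hd').2.1
      exact hik (hcod j j' hjj i k hi (hdvd _ _ (hid.trans h2)) hk (hdvd _ _ (hkd.trans h2)))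
  have hloc : ∀ j, 2 * Real.sqrt q ≤ (X j).card + (Y j).card + 2 := by
    intro j
    have h := local_bound (N j) p (r j) hp hpi (hr j) (fun i => hne i j) C (hC j)
    rw [hN j] at h
    have h' : (q : ℝ) ≤ ((X j).card : ℝ) * (((Y j).card : ℝ) + 2) := by exact_mod_cast h
    have h4 : (2 * Real.sqrt q) ^ 2 ≤ ((X j).card + (Y j).card + 2 : ℝ) ^ 2 := by
      rw [mul_pow, Real.sq_sqrt (Nat.cast_nonneg q)]
      nlinarith [sq_nonneg ((X j).card - ((Y j).card + 2) : ℝ)]
    exact le_of_sq_le_sq h4 (by positivity)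
  have hsum : ∑ _j : J, (2 * Real.sqrt q) ≤ ∑ j : J, (((X j).card : ℝ) + (Y j).card + 2) :=
    Finset.sum_le_sum fun j _ => hloc j
  rw [Finset.sum_const, Finset.card_univ, nsmul_eq_mul, Finset.sum_add_distrib,
    Finset.sum_add_distrib, Finset.sum_const, Finset.card_univ, nsmul_eq_mul] at hsum
  have a1 : (∑ j, ((X j).card : ℝ)) ≤ C.card := by exact_mod_cast hsX
  have a2 : (∑ j, ((Y j).card : ℝ)) ≤ C.card := by exact_mod_cast hsY
  nlinarith

end core

/-- **The result.** There are `ε > 0` and `n₀` such that for every `n > n₀` there are a set `B` of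
`n` positive reals and a set `A` of positive integers contained in the product set `B B` such that
`A` is not contained in `C C` for any set `C` of fewer than `n ^ (1 + ε)` positive integers. -/
theorem result : ∃ ε : ℝ, 0 < ε ∧ ∃ n₀ : ℕ, ∀ n : ℕ, n₀ < n →
    ∃ B : Finset ℝ, (∀ b ∈ B, 0 < b) ∧ B.card = n ∧
      ∃ A : Finset ℕ, (∀ a ∈ A, 0 < a ∧ ∃ x ∈ B, ∃ y ∈ B, (a : ℝ) = x * y) ∧
        ∀ C : Finset ℕ, (∀ c ∈ C, 0 < c) → (C.card : ℝ) < (n : ℝ) ^ (1 + ε) →
          ¬ ∀ a ∈ A, ∃ c ∈ C, ∃ d ∈ C, a = c * d := by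
  classical
  refine ⟨1 / 5, by norm_num, 17 ^ 20, fun n hn => ?_⟩
  -- the prime `q`
  set m := Nat.sqrt (n / 8) with hm
  have hm1 : m * m ≤ n / 8 := Nat.sqrt_le _
  have hm2 : n / 8 < (m + 1) * (m + 1) := Nat.lt_succ_sqrt _
  have hm0 : m ≠ 0 := by
    rintro h0
    rw [h0] at hm2
    omega
  obtain ⟨q, hq, hmq, hq2⟩ := Nat.exists_prime_lt_and_le_two_mul m hm0
  have hqn : 2 * q ^ 2 ≤ n := by
    have : q * q ≤ 2 * m * (2 * m) := Nat.mul_le_mul hq2 hq2
    have h3 : 8 * (n / 8) ≤ n := Nat.mul_div_le n 8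
    nlinarith
  have hnq : n < 8 * q ^ 2 := by
    have : (m + 1) * (m + 1) ≤ q * q := Nat.mul_le_mul hmq hmq
    have h3 : n < 8 * (n / 8) + 8 := by omega
    nlinarith
  have : Fact q.Prime := ⟨hq⟩
  have : NeZero q := ⟨hq.ne_zero⟩
  -- the primes
  let pr : ((ZMod q × ZMod q) ⊕ (ZMod q × ZMod q)) → ℕ := fun t =>
    Nat.nth Nat.Prime (Fintype.equivFin _ t : ℕ)
  have hpr : ∀ t, (pr t).Prime := fun t => Nat.prime_nth_prime _
  have hpri : Function.Injective pr := by
    intro s t h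
    have h1 := Nat.nth_injective Nat.infinite_setOfPred_prime h
    exact (Fintype.equivFin _).injective (Fin.ext h1)
  let p : ZMod q × ZMod q → ℕ := fun i => pr (Sum.inl i)
  let r : ZMod q × ZMod q → ℕ := fun j => pr (Sum.inr j)
  have hp : ∀ i, (p i).Prime := fun i => hpr _
  have hr : ∀ j, (r j).Prime := fun i => hpr _
  have hpi : Function.Injective p := fun a b h => Sum.inl_injective (hpri h)
  have hri : Function.Injective r := fun a b h => Sum.inr_injective (hpri h)
  have hne : ∀ i j, p i ≠ r j := fun i j h => Sum.inl_ne_inr (hpri h)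
  let N : ZMod q × ZMod q → Finset (ZMod q × ZMod q) := fun j =>
    Finset.univ.image fun x : ZMod q => (x, j.1 * x + j.2)
  have hN : ∀ j, (N j).card = q := by
    intro j
    rw [Finset.card_image_of_injective _ (fun a b h => (Prod.mk.inj h).1), Finset.card_univ,
      ZMod.card]
  have hcod : ∀ j j', j ≠ j' → ∀ i k, i ∈ N j → i ∈ N j' → k ∈ N j → k ∈ N j' → i = k := by
    intro j j' hjj i k h1 h2 h3 h4
    simp only [N, mem_image, mem_univ, true_and] at h1 h2 h3 h4
    obtain ⟨x, rfl⟩ := h1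
    obtain ⟨x', hx'⟩ := h2
    obtain ⟨y, rfl⟩ := h3
    obtain ⟨y', hy'⟩ := h4
    have e1 := (Prod.mk.inj hx').1
    have e2 := (Prod.mk.inj hx').2
    have e3 := (Prod.mk.inj hy').1
    have e4 := (Prod.mk.inj hy').2
    subst e1 e3
    by_contra hxy
    have hxy' : x' - y' ≠ 0 := by
      intro h
      apply hxy
      rw [sub_eq_zero.1 h]
    apply hjj
    have h5 : (j'.1 - j.1) * (x' - y') = 0 := by linear_combination e2 - e4
    rcases mul_eq_zero.1 h5 with h | h
    · have h6 : j'.1 = j.1 := sub_eq_zero.1 h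
      have h7 : j'.2 = j.2 := by
        rw [h6] at e2
        exact add_left_cancel e2
      exact Prod.ext h6.symm h7.symm
    · exact absurd h hxy'
  -- the elements of the basis
  let B₁ : Finset {x : ℝ // 0 < x} := Finset.univ.image fun i : ZMod q × ZMod q =>
    ⟨1 / (p i : ℝ), by have := (hp i).pos; positivity⟩
  let B₂ : Finset {x : ℝ // 0 < x} := Finset.univ.image fun j : ZMod q × ZMod q =>
    ⟨((r j * ∏ k ∈ N j, p k : ℕ) : ℝ), by
      have h1 := (hr j).pos
      have h2 : 0 < ∏ k ∈ N j, p k := Finset.prod_pos fun k _ => (hp k).pos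
      exact_mod_cast Nat.mul_pos h1 h2⟩
  have hcard : (B₁ ∪ B₂).card ≤ n := by
    refine le_trans (card_union_le _ _) ?_
    have c1 : B₁.card ≤ q ^ 2 := by
      refine le_trans card_image_le ?_
      rw [Finset.card_univ, Fintype.card_prod, ZMod.card, sq]
    have c2 : B₂.card ≤ q ^ 2 := by
      refine le_trans card_image_le ?_
      rw [Finset.card_univ, Fintype.card_prod, ZMod.card, sq]
    omega
  have : Infinite {x : ℝ // 0 < x} := Set.infinite_coe_iff.mpr (Set.Ioi_infinite (0 : ℝ))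
  obtain ⟨B, hB, hBn⟩ := Infinite.exists_superset_card_eq (B₁ ∪ B₂) n hcard
  refine ⟨B.map (Function.Embedding.subtype _), ?_, by rw [card_map, hBn], ?_⟩
  · intro b hb
    obtain ⟨x, _, rfl⟩ := mem_map.1 hb
    exact x.2
  refine ⟨Finset.univ.biUnion fun j => (N j).image fun i => r j * ∏ k ∈ (N j).erase i, p k,
    ?_, ?_⟩
  · intro a ha
    obtain ⟨j, _, ha⟩ := mem_biUnion.1 ha
    obtain ⟨i, hi, rfl⟩ := mem_image.1 ha
    have hpos : ∀ s : Finset (ZMod q × ZMod q), 0 < ∏ k ∈ s, p k :=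
      fun s => Finset.prod_pos fun k _ => (hp k).pos
    refine ⟨Nat.mul_pos (hr j).pos (hpos _), ?_⟩
    refine ⟨1 / (p i : ℝ), ?_, ((r j * ∏ k ∈ N j, p k : ℕ) : ℝ), ?_, ?_⟩
    · rw [mem_map]
      refine ⟨⟨1 / (p i : ℝ), by have := (hp i).pos; positivity⟩, hB ?_, rfl⟩
      exact mem_union_left _ (mem_image.2 ⟨i, mem_univ _, rfl⟩)
    · rw [mem_map]
      refine ⟨⟨((r j * ∏ k ∈ N j, p k : ℕ) : ℝ), ?_⟩, hB ?_, rfl⟩
      · exact_mod_cast Nat.mul_pos (hr j).pos (hpos _)
      · exact mem_union_right _ (mem_image.2 ⟨j, mem_univ _, rfl⟩)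
    · rw [← Finset.prod_erase_mul _ _ hi]
      have : (p i : ℝ) ≠ 0 := by exact_mod_cast (hp i).ne_zero
      push_cast
      field_simp
  · intro C _ hCn hAll
    have h := global_bound N q hN hcod p r hp hr hpi hri hne C (by
      intro j i hi
      exact hAll _ (mem_biUnion.2 ⟨j, mem_univ _, mem_image.2 ⟨i, hi, rfl⟩⟩))
    rw [Fintype.card_prod, ZMod.card] at h
    -- numerical comparison
    set t : ℝ := (n : ℝ) ^ ((1 : ℝ) / 20) with ht
    have hn0 : (0 : ℝ) ≤ n := Nat.cast_nonneg n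
    have ht20 : t ^ 20 = n := by
      rw [ht, ← Real.rpow_natCast, ← Real.rpow_mul hn0]
      norm_num
    have htpos : 0 ≤ t := Real.rpow_nonneg hn0 _
    have ht17 : 17 < t := by
      by_contra hcon
      have h1 : t ^ 20 ≤ 17 ^ 20 := pow_le_pow_left₀ htpos (not_lt.1 hcon) 20
      rw [ht20] at h1
      have h2 : ((17 ^ 20 : ℕ) : ℝ) < n := by exact_mod_cast hn
      push_cast at h2
      linarith
    have hpow : (n : ℝ) ^ (1 + (1 / 5 : ℝ)) = t ^ 24 := by
      rw [ht, ← Real.rpow_natCast, ← Real.rpow_mul hn0]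
      norm_num
    rw [hpow] at hCn
    -- `q ^ 2 > n / 8`, so `sqrt q > t ^ 5 / 2`
    have hq8 : t ^ 20 < 8 * (q : ℝ) ^ 2 := by rw [ht20]; exact_mod_cast hnq
    have hsq : t ^ 5 / 2 ≤ Real.sqrt q := by
      apply Real.le_sqrt_of_sq_le
      have h1 : ((t ^ 5 / 2) ^ 2) ^ 2 ≤ (q : ℝ) ^ 2 := by
        have : ((t ^ 5 / 2) ^ 2) ^ 2 = t ^ 20 / 16 := by ring
        rw [this]
        linarith
      exact le_of_sq_le_sq h1 (Nat.cast_nonneg q)
    have h5 : t ^ 5 / 2 - 1 ≤ Real.sqrt q - 1 := by linarith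
    have ht5 : 8 * t ^ 4 ≤ t ^ 5 / 2 - 1 := by
      have h4 : (17 : ℝ) ^ 4 ≤ t ^ 4 := pow_le_pow_left₀ (by norm_num) ht17.le 4
      have h4' : 0 ≤ (t - 17) * t ^ 4 := mul_nonneg (by linarith) (by positivity)
      have : t ^ 5 = (t - 17) * t ^ 4 + 17 * t ^ 4 := by ring
      rw [this]
      norm_num at h4
      linarith
    have h6 : t ^ 20 / 8 ≤ (q : ℝ) * q := by nlinarith
    have h7 : t ^ 20 / 8 * (8 * t ^ 4) ≤ ((q : ℝ) * q) * (Real.sqrt q - 1) := by
      apply mul_le_mul h6 (ht5.trans h5) (by positivity) (by positivity)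
    have h8 : t ^ 20 / 8 * (8 * t ^ 4) = t ^ 24 := by ring
    rw [h8] at h7
    push_cast at h
    linarith

end Pool.Agent.Results.MP_e3bb54_nt.PolynomialGap
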